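import Pool.Agent.Helper97.Ku.GoalsC

/-! From the certificate to many branches. -/

namespace Pool.Agent.Helper97.Ku.PkBWD

open Set

theorem mem_bo {P : Prop} {p : Cond} : p ∈ (bo P : BA) ↔ P := by
  by_cases h : P
  · rw [bo_true h]
    exact ⟨fun _ => h, fun _ => RO.mem_top p⟩
  · rw [bo_false h]
    exact ⟨fun k => absurd k (RO.not_mem_bot p), fun k => absurd k h⟩

theorem himp_ap {a b : BA} {p w : Cond} (h : p ∈ a ⇨ b) (hw : w ≤ p) (ha : w ∈ a) : w ∈ b :=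
  RO.mem_himp.mp h w hw ha

theorem tot_ap (f : FN Om BA) (i : Om) (w : Cond) : ∃ r, r ≤ w ∧ ∃ j, r ∈ f.v i j := by
  have h : w ∈ ⨆ j, f.v i j := by
    rw [f.tot i]
    exact RO.mem_top w
  exact RO.mem_iSup.mp h w le_rfl

theorem fn_ap (f : FN Om BA) {i j k : Om} {w : Cond} (h1 : w ∈ f.v i j) (h2 : w ∈ f.v i k) :
    j = k := by
  by_contra h
  have h3 : w ∈ f.v i j ⊓ f.v i k := RO.mem_inf.mpr ⟨h1, h2⟩
  rw [f.fn i j k h] at h3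
  exact RO.not_mem_bot w h3

theorem sup3 {a b : BA} {P : Prop} {w : Cond} (h : w ∈ a ⊔ (bo P ⊔ b)) :
    ∃ r, r ≤ w ∧ (r ∈ a ∨ P ∨ r ∈ b) := by
  obtain ⟨r, hr, h1⟩ := RO.mem_sup.mp h w le_rfl
  rcases h1 with h1 | h1
  · exact ⟨r, hr, Or.inl h1⟩
  · obtain ⟨s, hs, h2⟩ := RO.mem_sup.mp h1 r le_rfl
    rcases h2 with h2 | h2
    · exact ⟨s, hs.trans hr, Or.inr (Or.inl (mem_bo.mp h2))⟩
    · exact ⟨s, hs.trans hr, Or.inr (Or.inr h2)⟩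

theorem eqB_ap {a b : BA} {p w : Cond} (h : p ∈ eqB a b) (hw : w ≤ p) : w ∈ a ↔ w ∈ b := by
  obtain ⟨h1, h2⟩ := RO.mem_inf.mp h
  exact ⟨fun k => himp_ap h1 hw k, fun k => himp_ap h2 hw k⟩

theorem ht_ap {G : Grd Om} {p : Cond} {x ht : FN Om BA} (hT : TreeF G p x ht) {w : Cond}
    (hw : w ≤ p) {i j α β : Om} (h1 : w ∈ Rv G x i j) (h2 : w ∈ ht.v i α)
    (h3 : w ∈ ht.v j β) : α < β :=
  mem_bo.mp (himp_ap (hT.ht_lt i j α β) hw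
    (RO.mem_inf.mpr ⟨h1, RO.mem_inf.mpr ⟨h2, h3⟩⟩))

instance : Small.{0} Om := by
  unfold Om
  infer_instance

/-- A new row. -/
theorem exRow (D : Set Coord) (hD : Small.{0} D) (p : Cond) :
    ∃ ξ : Kap, Coord.row ξ ∉ D ∧ p.v (.row ξ) = none := by
  by_contra hc
  push Not at hc
  have h1 : ∀ ξ : Kap, Coord.row ξ ∈ D ∪ p.supp := by
    intro ξ
    by_cases h : Coord.row ξ ∈ D
    · exact Or.inl h
    · exact Or.inr (hc ξ h)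
  have : Countable p.supp := p.supp_countable.to_subtype
  have : Small.{0} p.supp := inferInstance
  have := hD
  have : Small.{0} (D ∪ p.supp : Set Coord) := inferInstance
  have h2 : Small.{0} Kap := by
    refine small_of_injective (f := fun ξ : Kap => (⟨Coord.row ξ, h1 ξ⟩ :
      (D ∪ p.supp : Set Coord))) ?_
    intro a b hab
    have h3 : Coord.row a = Coord.row b := congrArg Subtype.val hab
    exact Coord.row.inj h3
  exact not_small_ordinal h2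

/-- A new branch through the node. -/
theorem exQ (hlift : G_LIFT) (hens : G_ENS) (hrow : G_ROW) (G : Grd Om) (D : Set Coord)
    (hD : Small.{0} D) (γ0 k0 : Om) (hk : k0 < G.w0) (p : Cond) :
    ∃ q, q ≤ p ∧ ∃ ξ s, Coord.row ξ ∉ D ∧ q.v (.row ξ) = some (.nd s) ∧
      q ∈ brV G (rowN ξ) ∧ q ∈ ndV G (rowN ξ) γ0 k0 := by
  obtain ⟨ξ, hξ, hξ'⟩ := exRow D hD p
  have hex : ∃ p1 : Cond, p1 ≤ p ∧ γ0 ≤ p1.g ∧ p1.v = p.v := by
    rcases le_total p.g γ0 with h | h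
    · obtain ⟨p1, h1, h2, h3⟩ := hlift p γ0 h
      exact ⟨p1, h1, h2.ge, h3⟩
    · exact ⟨p, le_rfl, h, rfl⟩
  obtain ⟨p1, hp1, hg, hv⟩ := hex
  obtain ⟨hr1, -⟩ := hrow G p1
  obtain ⟨he, -⟩ := hens G (lev p1 γ0) (hr1 γ0).1 (hr1 γ0).2
  obtain ⟨s, hs, hs'⟩ := he k0 hk
  have hok : Ok p1.S (.row ξ) (.nd s) := hs
  have hn : p1.v (.row ξ) = none := by rw [hv]; exact hξ'
  have hqv : (upd p1 (.row ξ) (.nd s) hok).v (.row ξ) = some (.nd s) := upd_v_self _ _ _ _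
  refine ⟨upd p1 (.row ξ) (.nd s) hok, (upd_le p1 _ hok hn).trans hp1, ξ, s, hξ, hqv, ?_, ?_⟩
  · obtain ⟨-, -, -, -, -, -, -, -, -, h10, -⟩ := hrow G (upd p1 (.row ξ) (.nd s) hok)
    exact h10 ξ s hqv
  · obtain ⟨-, -, -, -, -, -, -, h8, -, -, -⟩ := hrow G (upd p1 (.row ξ) (.nd s) hok)
    exact (h8 ξ s γ0 k0 hqv hg hk).mpr hs'.symm

/-- The matching part. -/
noncomputable def mtV (G : Grd Om) (ht z : FN Om BA) (E : Om → Om → Om → BA) (ν : Om)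
    (a : Om → BA) : BA :=
  ⨅ α, ⨅ n, ⨅ m, ((EAV G a E n ⊓ (ht.v n α ⊓ z.v (G.pi (ν, α)) m)) ⇨ bo (n = m))

/-- The branches whose image is the function of index `ν`. -/
noncomputable def phV (G : Grd Om) (ht z : FN Om BA) (E : Om → Om → Om → BA)
    (Lx : Om → Om → BA) (γ0 k0 ν : Om) (a : Om → BA) : BA :=
  hyV G Lx γ0 k0 a ⊓ mtV G ht z E ν a

/-- The list of the branches coded by `z`. -/
noncomputable def lpV (G : Grd Om) (ht z : FN Om BA) (E : Om → Om → Om → BA)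
    (Lx : Om → Om → BA) (γ0 k0 ν β : Om) : BA :=
  ⨆ a : Om → BA, (phV G ht z E Lx γ0 k0 ν a ⊓ a β)

theorem mt_ap {G : Grd Om} {ht z : FN Om BA} {E : Om → Om → Om → BA} {ν : Om}
    {a : Om → BA} {p w : Cond} (h : p ∈ mtV G ht z E ν a) (hw : w ≤ p) {α n m : Om}
    (h1 : w ∈ EAV G a E n) (h2 : w ∈ ht.v n α) (h3 : w ∈ z.v (G.pi (ν, α)) m) : n = m := by
  have h4 := RO.mem_iInf.mp (RO.mem_iInf.mp (RO.mem_iInf.mp h α) n) m
  exact mem_bo.mp (himp_ap h4 hw (RO.mem_inf.mpr ⟨h1, RO.mem_inf.mpr ⟨h2, h3⟩⟩))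

/-- The image of the new branch is not coded by `z`. -/
theorem stp1 {G : Grd Om} {x ht z : FN Om BA} {E : Om → Om → Om → BA}
    {Lx : Om → Om → BA} {γ0 k0 ν : Om} {a0 : Om → BA} {q : Cond}
    (hc : q ∈ certV G x ht E Lx γ0 k0) (hn : q ∈ nlV (lpV G ht z E Lx γ0 k0) a0) :
    q ∈ (phV G ht z E Lx γ0 k0 ν a0)ᶜ := by
  intro w hw hwp
  have h1 := RO.lower hw (RO.mem_iInf.mp hn ν)
  obtain ⟨w1, hw1, β, h2⟩ := RO.mem_iSup.mp h1 w le_rfl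
  refine RO.not_mem_compl ?_ h2
  refine RO.mem_inf.mpr ⟨RO.mem_himp.mpr ?_, RO.mem_himp.mpr ?_⟩
  · intro u hu hua
    refine RO.mem_iSup.mpr fun r hr => ⟨r, le_rfl, a0, RO.mem_inf.mpr ⟨?_, RO.lower hr hua⟩⟩
    exact RO.lower (hr.trans (hu.trans hw1)) hwp
  · intro u hu hua
    refine RO.mem_of_compl fun r hr hra => ?_
    obtain ⟨r1, hr1, a, h3⟩ := RO.mem_iSup.mp hua r hr
    obtain ⟨h4, h5⟩ := RO.mem_inf.mp h3
    have hr1w : r1 ≤ w := hr1.trans (hr.trans (hu.trans hw1))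
    have h6 := RO.lower hr1w hwp
    obtain ⟨h7, h8⟩ := RO.mem_inf.mp h4
    obtain ⟨h9, h10⟩ := RO.mem_inf.mp h6
    have h11 : r1 ∈ neV a a0 := by
      refine RO.mem_iSup.mpr fun t ht' => ⟨t, le_rfl, β, ?_⟩
      intro t1 ht1 he
      have h12 : t1 ∈ a0 β := (eqB_ap he le_rfl).mp (RO.lower (ht1.trans ht') h5)
      exact hra t1 (ht1.trans (ht'.trans hr1)) h12
    have h13 := RO.mem_iInf.mp (RO.mem_iInf.mp (RO.mem_inf.mp hc).2 a) a0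
    have h14 := himp_ap h13 (hr1w.trans hw) (RO.mem_inf.mpr ⟨h7, RO.mem_inf.mpr ⟨h9, h11⟩⟩)
    obtain ⟨r2, hr2, n, h15⟩ := RO.mem_iSup.mp h14 r1 le_rfl
    obtain ⟨r3, hr3, m, h16⟩ := RO.mem_iSup.mp h15 r2 le_rfl
    obtain ⟨r4, hr4, α, h17⟩ := RO.mem_iSup.mp h16 r3 le_rfl
    obtain ⟨h18, h19⟩ := RO.mem_inf.mp h17
    obtain ⟨h20, h21⟩ := RO.mem_inf.mp h18
    obtain ⟨h22, h23⟩ := RO.mem_inf.mp h19
    obtain ⟨h24, h25⟩ := RO.mem_inf.mp h22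
    obtain ⟨r5, hr5, j, h26⟩ := tot_ap z (G.pi (ν, α)) r4
    have hr51 : r5 ≤ r1 := hr5.trans (hr4.trans (hr3.trans hr2))
    have e1 : n = j := mt_ap h8 hr51 (RO.lower hr5 h20) (RO.lower hr5 h24) h26
    have e2 : m = j := mt_ap h10 hr51 (RO.lower hr5 h21) (RO.lower hr5 h25) h26
    exact mem_bo.mp h23 (e1.trans e2.symm)

/-- Densely there is a level where the image of the new branch differs from `z ν`. -/
theorem stp2 {G : Grd Om} {ht z : FN Om BA} {E : Om → Om → Om → BA}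
    {Lx : Om → Om → BA} {γ0 k0 ν : Om} {a0 : Om → BA} {q w : Cond}
    (h : q ∈ (phV G ht z E Lx γ0 k0 ν a0)ᶜ) (hy : q ∈ hyV G Lx γ0 k0 a0) (hw : w ≤ q) :
    ∃ w', w' ≤ w ∧ ∃ α n m, n ≠ m ∧ w' ∈ EAV G a0 E n ∧ w' ∈ ht.v n α ∧
      w' ∈ z.v (G.pi (ν, α)) m := by
  have h1 : w ∉ mtV G ht z E ν a0 := fun k => h w hw (RO.mem_inf.mpr ⟨RO.lower hw hy, k⟩)
  by_contra hc
  push Not at hc
  refine h1 (RO.mem_iInf.mpr fun α => RO.mem_iInf.mpr fun n => RO.mem_iInf.mpr fun m => ?_)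
  refine RO.mem_himp.mpr fun u hu hu2 => ?_
  obtain ⟨h2, h3⟩ := RO.mem_inf.mp hu2
  obtain ⟨h4, h5⟩ := RO.mem_inf.mp h3
  refine mem_bo.mpr ?_
  by_contra hne
  exact hc u hu α n m hne h2 h4 h5

theorem bwd : G_CAP → G_LIFT → G_ENS → G_ROW → G_NL → G_FNOF → G_BWD := by
  intro hcap hlift hens hrow hnl hfn G x ht E Lx γ0 k0 p hT hk hc z
  obtain ⟨D, -, hDs, hDn⟩ := hcap ((Om × Om) ⊕ (Om × Om))
    (Sum.elim (fun t => Lx t.1 t.2) (fun t => lpV G ht z E Lx γ0 k0 t.1 t.2)) ∅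
    inferInstance inferInstance
  have hD1 : ∀ ν β, Dn D (Lx ν β) := fun ν β => hDn (Sum.inl (ν, β))
  have hD2 : ∀ ν β, Dn D (lpV G ht z E Lx γ0 k0 ν β) := fun ν β => hDn (Sum.inr (ν, β))
  refine RO.mem_iSup.mpr fun p' hp' => ?_
  obtain ⟨q, hq, ξ, s, hξ, hqv, hbr, hnd⟩ := exQ hlift hens hrow G D hDs γ0 k0 hk p'
  have hqp : q ≤ p := hq.trans hp'
  have hn1 : q ∈ nlV Lx (rowN ξ) := hnl Lx D ξ q s hD1 hξ hqv
  have hn2 : q ∈ nlV (lpV G ht z E Lx γ0 k0) (rowN ξ) :=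
    hnl (lpV G ht z E Lx γ0 k0) D ξ q s hD2 hξ hqv
  have hhy : q ∈ hyV G Lx γ0 k0 (rowN ξ) := RO.mem_inf.mpr ⟨hbr, RO.mem_inf.mpr ⟨hnd, hn1⟩⟩
  have hcq := RO.lower hqp hc
  have h1 := fun ν => stp1 (ν := ν) hcq hn2
  have hcc := himp_ap (RO.mem_iInf.mp (RO.mem_inf.mp hcq).1 (rowN ξ)) le_rfl hhy
  obtain ⟨hcof, hchn⟩ := RO.mem_inf.mp hcc
  have hch : ∀ w, w ≤ q → ∀ n m, w ∈ EAV G (rowN ξ) E n → w ∈ EAV G (rowN ξ) E m →
      ∃ r, r ≤ w ∧ (r ∈ Rv G x n m ∨ n = m ∨ r ∈ Rv G x m n) := by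
    intro w hw n m hn hm
    exact sup3 (himp_ap (RO.mem_iInf.mp (RO.mem_iInf.mp hchn n) m) hw
      (RO.mem_inf.mpr ⟨hn, hm⟩))
  obtain ⟨b, hb⟩ := hfn (fun α n => EAV G (rowN ξ) E n ⊓ ht.v n α)
  have hbY : ∀ w, w ≤ q → ∀ α n, (w ∈ EAV G (rowN ξ) E n ∧ w ∈ ht.v n α) ↔ w ∈ b.v α n := by
    intro w hw α n
    have h2 := hb α q (RO.mem_iInf.mp hcof α) ?_ n
    · rw [← eqB_ap h2 hw]
      exact RO.mem_inf.symm
    · intro j k hjk w' hw' hw2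
      obtain ⟨h3, h4⟩ := RO.mem_inf.mp hw2
      obtain ⟨h5, h6⟩ := RO.mem_inf.mp h3
      obtain ⟨h7, h8⟩ := RO.mem_inf.mp h4
      obtain ⟨r, hr, h9⟩ := hch w' hw' j k h5 h7
      have hrp : r ≤ p := hr.trans (hw'.trans hqp)
      rcases h9 with h9 | h9 | h9
      · exact lt_irrefl _ (ht_ap hT hrp h9 (RO.lower hr h6) (RO.lower hr h8))
      · exact hjk h9
      · exact lt_irrefl _ (ht_ap hT hrp h9 (RO.lower hr h8) (RO.lower hr h6))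
  have hbr1 : ∀ w, w ≤ q → ∀ α β n m, α < β → w ∈ b.v α n → w ∈ b.v β m →
      w ∈ Rv G x n m := by
    intro w hw α β n m hαβ hn hm
    obtain ⟨h2, h3⟩ := (hbY w hw α n).mpr hn
    obtain ⟨h4, h5⟩ := (hbY w hw β m).mpr hm
    refine RO.dense fun u hu => ?_
    obtain ⟨r, hr, h6⟩ := hch u (hu.trans hw) n m (RO.lower hu h2) (RO.lower hu h4)
    have hrw : r ≤ w := hr.trans hu
    have hrp : r ≤ p := hrw.trans (hw.trans hqp)
    refine ⟨r, hr, ?_⟩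
    rcases h6 with h6 | h6 | h6
    · exact h6
    · subst h6
      exact absurd (fn_ap ht (RO.lower hrw h3) (RO.lower hrw h5)) hαβ.ne
    · exact absurd (ht_ap hT hrp h6 (RO.lower hrw h5) (RO.lower hrw h3)) (not_lt.mpr hαβ.le)
  refine ⟨q, hq, b, RO.mem_inf.mpr ⟨RO.mem_inf.mpr ⟨?_, ?_⟩, ?_⟩⟩
  · refine RO.mem_iInf.mpr fun α => RO.mem_iInf.mpr fun β => RO.mem_iInf.mpr fun n =>
      RO.mem_iInf.mpr fun m => RO.mem_himp.mpr fun w hw hw2 => ?_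
    obtain ⟨h2, h3⟩ := RO.mem_inf.mp hw2
    obtain ⟨h4, h5⟩ := RO.mem_inf.mp h3
    exact hbr1 w hw α β n m (mem_bo.mp h2) h4 h5
  · refine RO.mem_iInf.mpr fun α => RO.mem_iInf.mpr fun n =>
      RO.mem_iInf.mpr fun i => RO.mem_himp.mpr fun w hw hw2 => ?_
    obtain ⟨h2, h3⟩ := RO.mem_inf.mp hw2
    refine RO.mem_iSup.mpr fun u hu => ?_
    obtain ⟨r, hr, β, h4⟩ := tot_ap ht i u
    obtain ⟨r1, hr1, m, h5⟩ := tot_ap b β r
    have hr1w : r1 ≤ w := hr1.trans (hr.trans hu)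
    have hr1q : r1 ≤ q := hr1w.trans hw
    have hr1p : r1 ≤ p := hr1q.trans hqp
    have h6 : r1 ∈ ht.v n α := ((hbY r1 hr1q α n).mpr (RO.lower hr1w h2)).2
    have h7 : r1 ∈ ht.v m β := ((hbY r1 hr1q β m).mpr h5).2
    have h8 : r1 ∈ ht.v i β := RO.lower hr1 h4
    have h9 : β < α := ht_ap hT hr1p (RO.lower hr1w h3) h8 h6
    have h10 : r1 ∈ Rv G x m n := hbr1 r1 hr1q β α m n h9 h5 (RO.lower hr1w h2)
    obtain ⟨r2, hr2, h11⟩ := sup3 (himp_ap (hT.lin i m n) hr1p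
      (RO.mem_inf.mpr ⟨RO.lower hr1w h3, h10⟩))
    refine ⟨r2, hr2.trans (hr1.trans hr), β, RO.mem_inf.mpr ⟨mem_bo.mpr h9, ?_⟩⟩
    rcases h11 with h11 | h11 | h11
    · exact absurd (ht_ap hT (hr2.trans hr1p) h11 (RO.lower hr2 h8) (RO.lower hr2 h7))
        (lt_irrefl _)
    · subst h11
      exact RO.lower hr2 h5
    · exact absurd (ht_ap hT (hr2.trans hr1p) h11 (RO.lower hr2 h7) (RO.lower hr2 h8))
        (lt_irrefl _)
  · intro w hw hwl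
    obtain ⟨w1, hw1, ν, h2⟩ := RO.mem_iSup.mp hwl w le_rfl
    obtain ⟨w2, hw2, α, n, m, hnm, h3, h4, h5⟩ := stp2 (h1 ν) hhy (hw1.trans hw)
    have hw2q : w2 ≤ q := hw2.trans (hw1.trans hw)
    have h6 : w2 ∈ b.v α n := (hbY w2 hw2q α n).mp ⟨h3, h4⟩
    have h7 : w2 ∈ b.v α m :=
      himp_ap (RO.mem_iInf.mp (RO.mem_iInf.mp h2 α) m) hw2 h5
    exact hnm (fn_ap b h6 h7)

end Pool.Agent.Helper97.Ku.PkBWD
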