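import Pool.Agent.Helper97.Ku.GoalsD

/-! The continuum hypothesis in the extension. -/

namespace Pool.Agent.Helper97.Ku.PkCH

open Set

theorem mem_bo {P : Prop} {p : Cond} : p ∈ (bo P : BA) ↔ P := by
  by_cases h : P
  · rw [bo_true h]
    exact ⟨fun _ => h, fun _ => RO.mem_top p⟩
  · rw [bo_false h]
    exact ⟨fun k => absurd k (RO.not_mem_bot p), fun k => absurd k h⟩

theorem himp_ap {a b : BA} {p w : Cond} (h : p ∈ a ⇨ b) (hw : w ≤ p) (ha : w ∈ a) : w ∈ b :=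
  RO.mem_himp.mp h w hw ha

theorem eqB_ap {a b : BA} {p w : Cond} (h : p ∈ eqB a b) (hw : w ≤ p) : w ∈ a ↔ w ∈ b := by
  obtain ⟨h1, h2⟩ := RO.mem_inf.mp h
  exact ⟨fun k => himp_ap h1 hw k, fun k => himp_ap h2 hw k⟩

instance : Small.{0} Om := by
  unfold Om
  infer_instance

theorem countable_lt (α : Om) : Countable {n : Om // n < α} := by
  have h1 : Countable (Iio (α.1 : Ordinal.{0})) := by
    rw [← Cardinal.mk_le_aleph0_iff, Cardinal.mk_Iio_ordinal, ← Cardinal.lift_aleph0.{1, 0},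
      Cardinal.lift_le]
    have h2 : (α.1 : Ordinal.{0}) < Ordinal.omega 1 := α.2
    have h3 : α.1.card < Cardinal.aleph 1 := by
      have h4 := Cardinal.lt_ord.mp (show α.1 < (Cardinal.aleph 1).ord by
        rw [Cardinal.ord_aleph]; exact h2)
      exact h4
    have h5 : (Cardinal.aleph 1 : Cardinal.{0}) = Order.succ Cardinal.aleph0 := by
      rw [Cardinal.succ_aleph0]
    rw [h5] at h3
    exact Order.lt_succ_iff.mp h3
  refine Function.Injective.countable (f := fun n : {n : Om // n < α} =>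
    (⟨n.1.1, n.2⟩ : Iio (α.1 : Ordinal.{0}))) ?_
  intro a b hab
  have h6 : a.1.1 = b.1.1 := congrArg (fun t : Iio (α.1 : Ordinal.{0}) => t.1) hab
  exact Subtype.ext (Subtype.ext h6)

/-- Values of the characteristic function. -/
theorem chr0 (G : Grd Om) (a : Om → BA) (m : Om) : (chr G a).v m G.c0 = (a m)ᶜ := by
  have h01 : G.c0 ≠ G.c1 := fun h => by
    have := (G.lt_c1 G.c0).mpr rfl
    rw [← h] at this
    exact lt_irrefl _ this
  show (bo (G.c0 = G.c1) ⊓ a m) ⊔ (bo (G.c0 = G.c0) ⊓ (a m)ᶜ) = (a m)ᶜ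
  rw [bo_false h01, bo_true (P := G.c0 = G.c0) rfl]
  simp

theorem ch : G_LL → G_CNTD → G_CH := by
  intro hll hcntd G i e
  obtain ⟨L, hL⟩ := hll (Set Om) Om (fun X n => bo (n ∈ X)) inferInstance inferInstance
  simp only [SO.ch, SO.exF, SO.ex, SO.imp, SO.val, compl_iInf, compl_compl, Tm.ev, M0]
  rw [eq_top_iff]
  refine le_trans ?_ (le_iSup _ (chr G fun m => (L (G.pi.symm m).1 (G.pi.symm m).2)ᶜ))
  intro p _
  simp only [Function.update_self, ne_eq, zero_ne_one, not_false_eq_true,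
    Function.update_of_ne, chr0, Equiv.symm_apply_apply, compl_compl]
  intro q _ hq
  obtain ⟨r, _, a', h1⟩ := RO.mem_iSup.mp hq q le_rfl
  have := countable_lt G.w0
  obtain ⟨q', hq', hd⟩ := hcntd {n : Om // n < G.w0} r
    (fun n => {w | w ∈ a'.v n.1 G.c0 ∨ w ∈ (a'.v n.1 G.c0)ᶜ})
    (fun n w _ => RO.mem_or_compl w)
    (fun n w w' hw hh => hh.imp (RO.lower hw) (RO.lower hw))
  obtain ⟨r1, hr1, ν, h2⟩ := RO.mem_iSup.mp (hL {n | q' ∈ a'.v n G.c0} q') q' le_rfl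
  refine h1 r1 (hr1.trans hq') (RO.mem_iSup.mpr fun t ht => ⟨t, le_rfl, ν, ?_⟩)
  intro t1 ht1 h3
  obtain ⟨t2, ht2, n, h4⟩ := RO.mem_iSup.mp h3 t1 le_rfl
  obtain ⟨h5, h6⟩ := RO.mem_inf.mp h4
  have hn : n < G.w0 := mem_bo.mp h5
  have ht2r : t2 ≤ r1 := ht2.trans (ht1.trans ht)
  have h7 := RO.mem_iInf.mp h2 n
  refine RO.not_mem_compl (RO.mem_inf.mpr ⟨?_, ?_⟩) h6
  · intro u hu h8
    obtain ⟨h9, h10⟩ := RO.mem_inf.mp h8
    have hur : u ≤ r1 := hu.trans ht2r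
    rcases hd ⟨n, hn⟩ with h11 | h11
    · have h12 : u ∈ (bo (n ∈ {n | q' ∈ a'.v n G.c0}) : BA) := mem_bo.mpr h11
      exact RO.not_mem_compl ((eqB_ap h7 hur).mpr h12) h10
    · exact RO.not_mem_compl h9 (RO.lower (hur.trans hr1) h11)
  · intro u hu h8
    obtain ⟨h9, h10⟩ := RO.mem_inf.mp h8
    have hur : u ≤ r1 := hu.trans ht2r
    have h12 : q' ∈ a'.v n G.c0 := mem_bo.mp ((eqB_ap h7 hur).mp h9)
    exact RO.not_mem_compl (RO.lower (hur.trans hr1) h12) h10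

end Pool.Agent.Helper97.Ku.PkCH
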